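import Pool.Agent.Q275.RT.Stm

set_option autoImplicit false

/-! Job DEN: positive density of the good numbers. -/

namespace Pool.Agent.Q119.RT

open Finset Filter
open Pool.Agent.Q275.RT

theorem PX_mem {X p : ℕ} (hp : p ∈ PX X) : p.Prime ∧ X < p ∧ p ≤ 4 * X := by
  unfold PX at hp
  rw [mem_filter, mem_Ioc] at hp
  exact ⟨hp.2, hp.1⟩

theorem sum_rX (X : ℕ) : (PX X).card ^ 2 ≤ ∑ s ∈ range (8 * X + 1), rX X s := by
  have h1 : ∑ s ∈ range (8 * X + 1), rX X s =
      ∑ p ∈ PX X, ((range (8 * X + 1)).filter (fun s => s - p ∈ PX X)).card := by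
    unfold rX
    simp only [card_filter]
    rw [sum_comm]
  rw [h1, pow_two]
  calc (PX X).card * (PX X).card = ∑ _p ∈ PX X, (PX X).card := by rw [sum_const, smul_eq_mul]
    _ ≤ _ := by
        refine sum_le_sum fun p hp => ?_
        apply Finset.card_le_card_of_injOn (fun q => p + q)
        · intro q hq
          rw [Finset.mem_coe] at hq
          rw [Finset.mem_coe, mem_filter, mem_range]
          have h2 := PX_mem hp
          have h3 := PX_mem hq
          simp only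
          refine ⟨by omega, ?_⟩
          rw [Nat.add_sub_cancel_left]
          exact hq
        · intro a _ b _ hab
          simpa using hab

theorem den (hE : S_ENG) : S_DEN := by
  obtain ⟨C, hC, X₀, hE⟩ := hE
  obtain ⟨n0, hmp⟩ := Pool.Agent.H312R2.many_primes
  have hlim : ∀ᶠ N : ℕ in atTop, 64 * 400 ^ 3 * Real.log N ^ 6 ≤ N := by
    have h := (Real.isLittleO_pow_log_id_atTop (n := 6)).bound
      (by norm_num : (0 : ℝ) < 1 / (64 * 400 ^ 3))
    have h2 := (tendsto_natCast_atTop_atTop (R := ℝ)).eventually h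
    filter_upwards [h2, eventually_ge_atTop 1] with N hN hN1
    have hN1' : (1 : ℝ) ≤ N := by exact_mod_cast hN1
    rw [Real.norm_of_nonneg (pow_nonneg (Real.log_nonneg hN1') _), id,
      Real.norm_of_nonneg (by linarith)] at hN
    linarith
  obtain ⟨N₁, hN₁⟩ := hlim.exists_forall_of_atTop
  refine ⟨1 / (8192 * C), by positivity, ?_, 4 * (X₀ + n0 + N₁ + 4), ?_⟩
  · rw [div_le_one (by positivity)]
    linarith
  intro x hx
  set X : ℕ := x / 4 with hXdef
  have hX : X₀ + n0 + N₁ + 4 ≤ X := by omega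
  have hx4 : 4 * X ≤ x := by omega
  have hx8 : x ≤ 8 * X := by omega
  have hX4 : 4 ≤ X := by omega
  have hX4' : (4 : ℝ) ≤ X := by exact_mod_cast hX4
  have hX0 : (0 : ℝ) < X := by linarith
  set L : ℝ := Real.log X with hL
  have hL0 : 0 < L := Real.log_pos (by linarith)
  have hlog := hN₁ X (by omega)
  rw [← hL] at hlog
  have hen := hE X (by omega)
  rw [← hL] at hen
  have hprime := hmp X (by omega)
  set N : ℝ := ((PX X).card : ℝ) with hN
  have hprime' : (X : ℝ) / 2 ≤ N * Real.log (4 * X) := hprime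
  have hlog4 : Real.log (4 * X) ≤ 2 * L := by
    rw [Real.log_mul (by norm_num) hX0.ne', hL]
    have : Real.log 4 ≤ Real.log X := Real.log_le_log (by norm_num) hX4'
    linarith
  have hN0 : 0 ≤ N := Nat.cast_nonneg _
  have hNX : (X : ℝ) ≤ 4 * (N * L) := by
    have h1 : N * Real.log (4 * X) ≤ N * (2 * L) := mul_le_mul_of_nonneg_left hlog4 hN0
    linarith
  -- the set `H`
  set T : ℝ := X / (400 * L ^ 2) with hT
  have hT0 : 0 < T := by positivity
  set H := (range (8 * X + 1)).filter (fun s => T ≤ (rX X s : ℝ)) with hH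
  have hsum : N ^ 2 ≤ ∑ s ∈ range (8 * X + 1), (rX X s : ℝ) := by
    rw [hN]
    exact_mod_cast sum_rX X
  have hsplit : ∑ s ∈ range (8 * X + 1), (rX X s : ℝ) ≤ ∑ s ∈ H, (rX X s : ℝ) + (8 * X + 1) * T := by
    rw [← sum_filter_add_sum_filter_not (range (8 * X + 1)) (fun s => T ≤ (rX X s : ℝ))]
    have : ∑ s ∈ (range (8 * X + 1)).filter (fun s => ¬ T ≤ (rX X s : ℝ)), (rX X s : ℝ) ≤
        (8 * X + 1) * T := by
      calc ∑ s ∈ (range (8 * X + 1)).filter (fun s => ¬ T ≤ (rX X s : ℝ)), (rX X s : ℝ)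
          ≤ ∑ _s ∈ (range (8 * X + 1)).filter (fun s => ¬ T ≤ (rX X s : ℝ)), T := by
            refine sum_le_sum fun s hs => ?_
            exact (not_le.1 (mem_filter.1 hs).2).le
        _ = (((range (8 * X + 1)).filter (fun s => ¬ T ≤ (rX X s : ℝ))).card : ℝ) * T := by
            rw [sum_const, nsmul_eq_mul]
        _ ≤ (8 * X + 1) * T := by
            apply mul_le_mul_of_nonneg_right _ hT0.le
            have := card_filter_le (range (8 * X + 1)) (fun s => ¬ T ≤ (rX X s : ℝ))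
            rw [card_range] at this
            exact_mod_cast this
    linarith
  have hsmall : (8 * X + 1) * T ≤ N ^ 2 / 2 := by
    have h1 : (8 * (X : ℝ) + 1) ≤ 9 * X := by linarith
    have h2 : (X : ℝ) ^ 2 ≤ 16 * (N ^ 2 * L ^ 2) := by
      have := pow_le_pow_left₀ hX0.le hNX 2
      calc (X : ℝ) ^ 2 ≤ (4 * (N * L)) ^ 2 := this
        _ = 16 * (N ^ 2 * L ^ 2) := by ring
    calc (8 * (X : ℝ) + 1) * T ≤ 9 * X * T := mul_le_mul_of_nonneg_right h1 hT0.le
      _ = 9 * (X : ℝ) ^ 2 / (400 * L ^ 2) := by rw [hT]; ring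
      _ ≤ 9 * (16 * (N ^ 2 * L ^ 2)) / (400 * L ^ 2) := by gcongr
      _ = 144 / 400 * N ^ 2 := by
          field_simp
          ring
      _ ≤ N ^ 2 / 2 := by nlinarith [sq_nonneg N]
  have hHsum : N ^ 2 / 2 ≤ ∑ s ∈ H, (rX X s : ℝ) := by linarith
  have hCS : (N ^ 2 / 2) ^ 2 ≤ (H.card : ℝ) * (C * (X : ℝ) ^ 3 / L ^ 4) := by
    calc (N ^ 2 / 2) ^ 2 ≤ (∑ s ∈ H, (rX X s : ℝ)) ^ 2 :=
          pow_le_pow_left₀ (by positivity) hHsum 2
      _ ≤ (H.card : ℝ) * ∑ s ∈ H, (rX X s : ℝ) ^ 2 := sq_sum_le_card_mul_sum_sq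
      _ ≤ (H.card : ℝ) * (C * (X : ℝ) ^ 3 / L ^ 4) := by
          apply mul_le_mul_of_nonneg_left _ (Nat.cast_nonneg _)
          rw [le_div_iff₀ (by positivity)]
          refine le_trans ?_ hen
          apply mul_le_mul_of_nonneg_right _ (by positivity)
          exact sum_le_sum_of_subset_of_nonneg (filter_subset _ _) (fun _ _ _ => by positivity)
  have hcard : (X : ℝ) / (1024 * C) ≤ H.card := by
    have h1 : (X : ℝ) ^ 4 ≤ 256 * (N ^ 4 * L ^ 4) := by
      have := pow_le_pow_left₀ hX0.le hNX 4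
      calc (X : ℝ) ^ 4 ≤ (4 * (N * L)) ^ 4 := this
        _ = 256 * (N ^ 4 * L ^ 4) := by ring
    have h2 : N ^ 4 * L ^ 4 ≤ 4 * ((H.card : ℝ) * (C * (X : ℝ) ^ 3)) := by
      have := mul_le_mul_of_nonneg_right hCS (by positivity : 0 ≤ 4 * L ^ 4)
      have e1 : (N ^ 2 / 2) ^ 2 * (4 * L ^ 4) = N ^ 4 * L ^ 4 := by ring
      have e2 : (H.card : ℝ) * (C * (X : ℝ) ^ 3 / L ^ 4) * (4 * L ^ 4) =
          4 * ((H.card : ℝ) * (C * (X : ℝ) ^ 3)) := by
        field_simp
      rw [e1, e2] at this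
      exact this
    rw [div_le_iff₀ (by positivity)]
    have h3 : (X : ℝ) ^ 3 * X ≤ (X : ℝ) ^ 3 * (H.card * (1024 * C)) := by
      calc (X : ℝ) ^ 3 * X = (X : ℝ) ^ 4 := by ring
        _ ≤ 256 * (4 * ((H.card : ℝ) * (C * (X : ℝ) ^ 3))) := by linarith
        _ = (X : ℝ) ^ 3 * (H.card * (1024 * C)) := by ring
    exact le_of_mul_le_mul_left h3 (by positivity)
  -- the elements of `H`
  have hHel : ∀ s ∈ H, ∃ t, s = 2 * t ∧ 1 ≤ t ∧ t ≤ 4 * X ∧ Good t := by
    intro s hs
    rw [hH, mem_filter, mem_range] at hs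
    obtain ⟨hs1, hs2⟩ := hs
    have hpos : 0 < rX X s := by
      have : (0 : ℝ) < rX X s := lt_of_lt_of_le hT0 hs2
      exact_mod_cast this
    unfold rX at hpos
    obtain ⟨p, hp⟩ := card_pos.1 hpos
    rw [mem_filter] at hp
    have hp1 := PX_mem hp.1
    have hp2 := PX_mem hp.2
    have o1 : Odd p := hp1.1.odd_of_ne_two (by omega)
    have o2 : Odd (s - p) := hp2.1.odd_of_ne_two (by omega)
    have hev : Even s := by
      have : s = p + (s - p) := by omega
      rw [this]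
      exact o1.add_odd o2
    obtain ⟨t, ht⟩ := hev
    have hst : s = 2 * t := by omega
    refine ⟨t, hst, by omega, by omega, ?_⟩
    unfold Good
    rw [← hst]
    have hrep : rX X s ≤ rep s := by
      unfold rX rep
      apply card_le_card
      intro p hp
      rw [mem_filter] at hp
      have hp1 := PX_mem hp.1
      have hp2 := PX_mem hp.2
      rw [mem_filter, mem_range]
      exact ⟨by omega, hp1.1, hp2.1⟩
    have hfin : ((s : ℝ)) ^ 2 ≤ ((rep s : ℕ) : ℝ) ^ 3 := by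
      have h1 : (s : ℝ) ≤ 8 * X := by
        have : s ≤ 8 * X := by omega
        exact_mod_cast this
      have h2 : T ≤ ((rep s : ℕ) : ℝ) := hs2.trans (by exact_mod_cast hrep)
      calc (s : ℝ) ^ 2 ≤ (8 * X) ^ 2 := pow_le_pow_left₀ (Nat.cast_nonneg _) h1 2
        _ = 64 * (X : ℝ) ^ 2 := by ring
        _ ≤ T ^ 3 := by
            rw [hT, div_pow, le_div_iff₀ (by positivity)]
            calc 64 * (X : ℝ) ^ 2 * (400 * L ^ 2) ^ 3 = (X : ℝ) ^ 2 * (64 * 400 ^ 3 * L ^ 6) := by ring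
              _ ≤ (X : ℝ) ^ 2 * X := by gcongr
              _ = (X : ℝ) ^ 3 := by ring
        _ ≤ ((rep s : ℕ) : ℝ) ^ 3 := pow_le_pow_left₀ hT0.le h2 3
    exact_mod_cast hfin
  refine ⟨H.image (fun s => s / 2), ?_, ?_⟩
  · intro t ht
    rw [mem_image] at ht
    obtain ⟨s, hs, hst⟩ := ht
    obtain ⟨t', ht', h1, h2, h3⟩ := hHel s hs
    have : t = t' := by omega
    subst this
    exact ⟨h1, by omega, h3⟩
  · rw [card_image_of_injOn]
    · have h1 : (x : ℝ) ≤ 8 * X := by exact_mod_cast hx8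
      calc 1 / (8192 * C) * (x : ℝ) ≤ 1 / (8192 * C) * (8 * X) := by gcongr
        _ = X / (1024 * C) := by
            field_simp
            norm_num
        _ ≤ H.card := hcard
    · intro a ha b hb hab
      obtain ⟨t, ht, _⟩ := hHel a ha
      obtain ⟨u, hu, _⟩ := hHel b hb
      simp only at hab
      omega

end Pool.Agent.Q119.RT
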