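import Pool.Agent.Q275.RT.Stm

set_option autoImplicit false

/-! Job ENG: the additive energy of the primes. -/

namespace Pool.Agent.Q119.RT

open Finset Filter
open Pool.Agent.Q275.RT

/-- the number of the pairs of primes at the distance `h` -/
def rho (X h : ℕ) : ℕ := ((PX X).filter (fun n => n + h ∈ PX X)).card

theorem PX_pos {X p : ℕ} (hp : p ∈ PX X) : 1 ≤ p ∧ X < p ∧ p ≤ 4 * X := by
  unfold PX at hp
  rw [mem_filter, mem_Ioc] at hp
  omega

theorem card_common {X p p' : ℕ} :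
    ((range (8 * X + 1)).filter (fun s => s - p ∈ PX X ∧ s - p' ∈ PX X)).card ≤
      rho X (Nat.dist p p') := by
  unfold rho
  wlog h : p' ≤ p generalizing p p'
  · have := this (p := p') (p' := p) (by omega)
    rw [Nat.dist_comm] at this
    refine le_trans (le_of_eq ?_) this
    congr 1
    ext s
    simp only [mem_filter]
    tauto
  rw [Nat.dist_eq_sub_of_le_right h]
  apply Finset.card_le_card_of_injOn (fun s => s - p)
  · intro s hs
    rw [Finset.mem_coe, mem_filter] at hs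
    obtain ⟨_, h1, h2⟩ := hs
    have h3 := PX_pos h1
    rw [Finset.mem_coe, mem_filter]
    refine ⟨h1, ?_⟩
    have : s - p + (p - p') = s - p' := by omega
    rw [this]
    exact h2
  · intro s hs t ht hst
    rw [Finset.mem_coe, mem_filter] at hs ht
    have h1 := PX_pos hs.2.1
    have h2 := PX_pos ht.2.1
    simp only at hst
    omega

theorem card_dist (X h : ℕ) :
    (((PX X) ×ˢ (PX X)).filter (fun z => Nat.dist z.1 z.2 = h)).card ≤ 2 * rho X h := by
  have hsub : ((PX X) ×ˢ (PX X)).filter (fun z => Nat.dist z.1 z.2 = h) ⊆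
      (((PX X).filter (fun n => n + h ∈ PX X)).image fun n => (n, n + h)) ∪
      (((PX X).filter (fun n => n + h ∈ PX X)).image fun n => (n + h, n)) := by
    rintro ⟨a, b⟩ hz
    rw [mem_filter, mem_product] at hz
    obtain ⟨⟨ha, hb⟩, hd⟩ := hz
    simp only at ha hb hd
    rw [mem_union, mem_image, mem_image]
    rcases le_total a b with hab | hab
    · left
      rw [Nat.dist_eq_sub_of_le hab] at hd
      refine ⟨a, ?_, ?_⟩
      · rw [mem_filter]
        refine ⟨ha, ?_⟩
        have : a + h = b := by omega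
        rw [this]
        exact hb
      · have : a + h = b := by omega
        rw [this]
    · right
      rw [Nat.dist_eq_sub_of_le_right hab] at hd
      refine ⟨b, ?_, ?_⟩
      · rw [mem_filter]
        refine ⟨hb, ?_⟩
        have : b + h = a := by omega
        rw [this]
        exact ha
      · have : b + h = a := by omega
        rw [this]
  refine (card_le_card hsub).trans ((card_union_le _ _).trans ?_)
  have h1 := card_image_le (s := (PX X).filter (fun n => n + h ∈ PX X)) (f := fun n => (n, n + h))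
  have h2 := card_image_le (s := (PX X).filter (fun n => n + h ∈ PX X)) (f := fun n => (n + h, n))
  unfold rho
  omega

theorem energy (X : ℕ) : ∑ s ∈ range (8 * X + 1), rX X s ^ 2 ≤
    ∑ h ∈ range (3 * X + 1), 2 * rho X h ^ 2 := by
  have h1 : ∀ s, rX X s ^ 2 = ∑ z ∈ (PX X) ×ˢ (PX X), if s - z.1 ∈ PX X ∧ s - z.2 ∈ PX X then 1 else 0 := by
    intro s
    rw [← card_filter]
    unfold rX
    rw [pow_two, ← card_product]
    congr 1
    ext ⟨a, b⟩
    simp only [mem_product, mem_filter]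
    tauto
  calc ∑ s ∈ range (8 * X + 1), rX X s ^ 2
      = ∑ z ∈ (PX X) ×ˢ (PX X), ∑ s ∈ range (8 * X + 1),
          (if s - z.1 ∈ PX X ∧ s - z.2 ∈ PX X then 1 else 0) := by
        rw [sum_congr rfl (fun s _ => h1 s), sum_comm]
    _ ≤ ∑ z ∈ (PX X) ×ˢ (PX X), rho X (Nat.dist z.1 z.2) := by
        refine sum_le_sum fun z _ => ?_
        rw [← card_filter]
        exact card_common
    _ = ∑ h ∈ range (3 * X + 1), ∑ z ∈ ((PX X) ×ˢ (PX X)).filter (fun z => Nat.dist z.1 z.2 = h),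
          rho X (Nat.dist z.1 z.2) := by
        rw [sum_fiberwise_of_maps_to]
        rintro ⟨a, b⟩ hz
        rw [mem_product] at hz
        have ha := PX_pos hz.1
        have hb := PX_pos hz.2
        simp only at ha hb ⊢
        rw [mem_range]
        unfold Nat.dist
        omega
    _ ≤ ∑ h ∈ range (3 * X + 1), 2 * rho X h ^ 2 := by
        refine sum_le_sum fun h _ => ?_
        calc ∑ z ∈ ((PX X) ×ˢ (PX X)).filter (fun z => Nat.dist z.1 z.2 = h),
              rho X (Nat.dist z.1 z.2)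
            = ∑ z ∈ ((PX X) ×ˢ (PX X)).filter (fun z => Nat.dist z.1 z.2 = h), rho X h := by
              refine sum_congr rfl fun z hz => ?_
              rw [(mem_filter.1 hz).2]
          _ = (((PX X) ×ˢ (PX X)).filter (fun z => Nat.dist z.1 z.2 = h)).card * rho X h := by
              rw [sum_const, smul_eq_mul]
          _ ≤ 2 * rho X h * rho X h := Nat.mul_le_mul_right _ (card_dist X h)
          _ = 2 * rho X h ^ 2 := by ring

theorem eng (hF : S_SGF) : S_ENG := by
  obtain ⟨CF, hCF, hsg⟩ := hF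
  obtain ⟨C, hC, u0, hps⟩ := Pool.Agent.H357R2.SI.pair_sieve
  have hlim : ∀ᶠ N : ℕ in atTop, Real.log N ^ 4 ≤ N := by
    have h := (Real.isLittleO_pow_log_id_atTop (n := 4)).bound (by norm_num : (0 : ℝ) < 1)
    have h2 := (tendsto_natCast_atTop_atTop (R := ℝ)).eventually h
    filter_upwards [h2, eventually_ge_atTop 1] with N hN hN1
    have hN1' : (1 : ℝ) ≤ N := by exact_mod_cast hN1
    rw [Real.norm_of_nonneg (pow_nonneg (Real.log_nonneg hN1') _), id,
      Real.norm_of_nonneg (by linarith)] at hN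
    linarith
  obtain ⟨N₁, hN₁⟩ := hlim.exists_forall_of_atTop
  refine ⟨18 + 54 * C ^ 2 * CF, ?_, max (max u0 N₁) 3, ?_⟩
  · have : 0 ≤ 54 * C ^ 2 * CF := by positivity
    linarith
  intro X hX
  have hXu : u0 ≤ X := (le_max_left _ _).trans ((le_max_left _ _).trans hX)
  have hXN : N₁ ≤ X := (le_max_right _ _).trans ((le_max_left _ _).trans hX)
  have hX3 : 3 ≤ X := (le_max_right _ _).trans hX
  have hX3' : (3 : ℝ) ≤ X := by exact_mod_cast hX3
  have hX0 : (0 : ℝ) < X := by linarith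
  have hL : 0 < Real.log X := Real.log_pos (by linarith)
  have hlog := hN₁ X hXN
  have hrho : ∀ h ∈ Icc 1 (3 * X), ((rho X h : ℕ) : ℝ) ^ 2 ≤
      9 * C ^ 2 * (X : ℝ) ^ 2 / Real.log X ^ 4 * Pool.Agent.H357R2.SI.sg h ^ 4 := by
    intro h hh
    rw [mem_Icc] at hh
    have h1 := hps h X (3 * X) (by omega) (by omega)
    have h2 : rho X h ≤ ((Finset.Ioc X (X + 3 * X)).filter (fun n => n.Prime ∧ (n + h).Prime)).card := by
      unfold rho
      apply card_le_card
      intro n hn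
      rw [mem_filter] at hn
      obtain ⟨ha, hb⟩ := hn
      unfold PX at ha hb
      rw [mem_filter, mem_Ioc] at ha hb
      rw [mem_filter, mem_Ioc]
      exact ⟨⟨ha.1.1, by omega⟩, ha.2, hb.2⟩
    have h3 : ((rho X h : ℕ) : ℝ) ≤ C * Pool.Agent.H357R2.SI.sg h ^ 2 * (3 * X) / Real.log X ^ 2 := by
      calc ((rho X h : ℕ) : ℝ) ≤ (((Finset.Ioc X (X + 3 * X)).filter
            (fun n => n.Prime ∧ (n + h).Prime)).card : ℝ) := by exact_mod_cast h2
        _ ≤ C * Pool.Agent.H357R2.SI.sg h ^ 2 * ((3 * X : ℕ) : ℝ) / Real.log ((3 * X : ℕ) : ℝ) ^ 2 := h1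
        _ ≤ C * Pool.Agent.H357R2.SI.sg h ^ 2 * (3 * X) / Real.log X ^ 2 := by
            apply div_le_div₀ (by positivity) _ (by positivity)
            · apply pow_le_pow_left₀ hL.le
              apply Real.log_le_log hX0
              push_cast
              linarith
            · push_cast
              exact le_rfl
    calc ((rho X h : ℕ) : ℝ) ^ 2
        ≤ (C * Pool.Agent.H357R2.SI.sg h ^ 2 * (3 * X) / Real.log X ^ 2) ^ 2 :=
          pow_le_pow_left₀ (Nat.cast_nonneg _) h3 2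
      _ = 9 * C ^ 2 * (X : ℝ) ^ 2 / Real.log X ^ 4 * Pool.Agent.H357R2.SI.sg h ^ 4 := by
          rw [div_pow]
          field_simp
          ring
  have hrho0 : ((rho X 0 : ℕ) : ℝ) ^ 2 ≤ 9 * (X : ℝ) ^ 2 := by
    have h1 : rho X 0 ≤ 3 * X := by
      unfold rho PX
      refine (card_filter_le _ _).trans ((card_filter_le _ _).trans ?_)
      rw [Nat.card_Ioc]
      omega
    have h2 : ((rho X 0 : ℕ) : ℝ) ≤ 3 * X := by exact_mod_cast h1
    calc ((rho X 0 : ℕ) : ℝ) ^ 2 ≤ (3 * X) ^ 2 := pow_le_pow_left₀ (Nat.cast_nonneg _) h2 2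
      _ = 9 * (X : ℝ) ^ 2 := by ring
  have hen : (∑ s ∈ range (8 * X + 1), (rX X s : ℝ) ^ 2) ≤
      ∑ h ∈ range (3 * X + 1), 2 * ((rho X h : ℕ) : ℝ) ^ 2 := by
    exact_mod_cast energy X
  have hsplit : ∑ h ∈ range (3 * X + 1), 2 * ((rho X h : ℕ) : ℝ) ^ 2 =
      2 * ((rho X 0 : ℕ) : ℝ) ^ 2 + ∑ h ∈ Icc 1 (3 * X), 2 * ((rho X h : ℕ) : ℝ) ^ 2 := by
    rw [sum_range_succ', add_comm]
    congr 1
    rw [← sum_image (f := fun h => 2 * ((rho X h : ℕ) : ℝ) ^ 2) (g := fun i => i + 1)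
      (s := range (3 * X)) (by intro a _ b _ hab; simpa using hab)]
    congr 1
    ext a
    simp only [mem_image, mem_range, mem_Icc]
    constructor
    · rintro ⟨b, hb, rfl⟩
      omega
    · rintro ⟨h1, h2⟩
      exact ⟨a - 1, by omega, by omega⟩
  have hsum : ∑ h ∈ Icc 1 (3 * X), 2 * ((rho X h : ℕ) : ℝ) ^ 2 ≤
      54 * C ^ 2 * CF * (X : ℝ) ^ 3 / Real.log X ^ 4 := by
    calc ∑ h ∈ Icc 1 (3 * X), 2 * ((rho X h : ℕ) : ℝ) ^ 2
        ≤ ∑ h ∈ Icc 1 (3 * X), 2 * (9 * C ^ 2 * (X : ℝ) ^ 2 / Real.log X ^ 4 *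
            Pool.Agent.H357R2.SI.sg h ^ 4) := by
          refine sum_le_sum fun h hh => ?_
          have := hrho h hh
          linarith
      _ = 18 * C ^ 2 * (X : ℝ) ^ 2 / Real.log X ^ 4 * ∑ h ∈ Icc 1 (3 * X),
            Pool.Agent.H357R2.SI.sg h ^ 4 := by
          rw [mul_sum]
          refine sum_congr rfl fun h _ => ?_
          ring
      _ ≤ 18 * C ^ 2 * (X : ℝ) ^ 2 / Real.log X ^ 4 * (CF * ((3 * X : ℕ) : ℝ)) := by
          apply mul_le_mul_of_nonneg_left (hsg (3 * X)) (by positivity)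
      _ = 54 * C ^ 2 * CF * (X : ℝ) ^ 3 / Real.log X ^ 4 := by
          push_cast
          ring
  calc (∑ s ∈ range (8 * X + 1), (rX X s : ℝ) ^ 2) * Real.log X ^ 4
      ≤ (2 * (9 * (X : ℝ) ^ 2) + 54 * C ^ 2 * CF * (X : ℝ) ^ 3 / Real.log X ^ 4) * Real.log X ^ 4 := by
        apply mul_le_mul_of_nonneg_right _ (by positivity)
        refine hen.trans ?_
        rw [hsplit]
        linarith
    _ = 18 * (X : ℝ) ^ 2 * Real.log X ^ 4 + 54 * C ^ 2 * CF * (X : ℝ) ^ 3 := by
        field_simp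
        ring
    _ ≤ 18 * (X : ℝ) ^ 2 * X + 54 * C ^ 2 * CF * (X : ℝ) ^ 3 := by gcongr
    _ = (18 + 54 * C ^ 2 * CF) * (X : ℝ) ^ 3 := by ring

end Pool.Agent.Q119.RT
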